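import Mathlib
import Pool.Agent.Q182.DIDefs
import Pool.Agent.Q182.DIFinal

/-!
# A group that is not d-independent although its square is

There is (in ZFC) a Hausdorff topological Boolean group `G` such that `G × G` is d-independent but
`G` is not d-independent: some countable subgroup of `G` meets every countable dense subgroup of
`G` non-trivially.
-/

namespace Pool.Agent.Results.MP_23f360_gt.SquareOnly

open Q182

theorem result :
    ∃ (G : Type) (_ : AddCommGroup G) (_ : TopologicalSpace G) (_ : IsTopologicalAddGroup G)
      (_ : T2Space G), DIndependent (G × G) ∧ ¬ DIndependent G := by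
  obtain ⟨f, h1, h2, h3⟩ := DI.main
  exact ⟨DI.G, inferInstance, DI.fTop f, DI.fTop_group f, h1, h2, h3⟩

end Pool.Agent.Results.MP_23f360_gt.SquareOnly
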